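import Mathlib
import Pool.Agent.Q110.Jac.Main

/-!
# MP_c5c797_nt: an irreducible non-unimodular lattice without weak Jacobi forms of weight zero

`L15` is the orthogonal complement of a root in the even unimodular lattice `D₁₆⁺` (rank 15,
determinant 2). It has no nonzero weak Jacobi form of weight 0 and index 1.
-/

set_option autoImplicit false

open UpperHalfPlane ModularForm MatrixGroups
open scoped Real

namespace Pool.Agent.Results.MP_c5c797_nt.NoWeightZero

open Pool.Agent.Q110.Jac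

/-- `B` is a homogeneous basis (the weight of `B i` is `k i`) of the graded module of the weak
Jacobi forms of index one for `L` over the ring of modular forms for `SL₂(ℤ)` -/
def IsHomBasis {n : ℕ} (L : AddSubgroup (Fin n → ℝ)) {ι : Type} (k : ι → ℤ)
    (B : ι → ℍ → (Fin n → ℂ) → ℂ) : Prop :=
  (∀ i, WeakJacobi (k i) L (B i)) ∧
    ∀ (m : ℤ) (φ : ℍ → (Fin n → ℂ) → ℂ), WeakJacobi m L φ →
      ∃! g : (i : ι) → ModularForm 𝒮ℒ (m - k i), {i | g i ≠ 0}.Finite ∧
        ∀ τ z, φ τ z = ∑ᶠ i, g i τ * B i τ z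

/-- if there are no forms of weight zero, no homogeneous basis has an element of weight zero -/
theorem basis_ne_zero {n : ℕ} (L : AddSubgroup (Fin n → ℝ))
    (h0 : ∀ φ : ℍ → (Fin n → ℂ) → ℂ, WeakJacobi 0 L φ → ∀ τ z, φ τ z = 0) {ι : Type}
    (k : ι → ℤ) (B : ι → ℍ → (Fin n → ℂ) → ℂ) (hbas : IsHomBasis L k B) (i₀ : ι) : k i₀ ≠ 0 := by
  classical
  intro hi₀
  obtain ⟨hB, hg⟩ := hbas
  have hBz : ∀ τ z, B i₀ τ z = 0 := h0 (B i₀) (by have := hB i₀; rwa [hi₀] at this)
  obtain ⟨g, -, hu⟩ := hg 0 (B i₀) (by have := hB i₀; rwa [hi₀] at this)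
  have hw : (0 : ℤ) = 0 - k i₀ := by rw [hi₀]; rfl
  let g₂ : (i : ι) → ModularForm 𝒮ℒ (0 - k i) :=
    Function.update (fun i => (0 : ModularForm 𝒮ℒ (0 - k i))) i₀
      (ModularForm.mcast hw (ModularForm.const 1) rfl)
  have h1 : (fun i => (0 : ModularForm 𝒮ℒ (0 - k i))) = g := by
    refine hu _ ⟨by simp, fun τ z => ?_⟩
    rw [hBz]
    symm
    refine finsum_eq_zero_of_forall_eq_zero fun i => ?_
    show (0 : ModularForm 𝒮ℒ (0 - k i)) τ * B i τ z = 0
    rw [ModularForm.zero_apply, zero_mul]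
  have h2 : g₂ = g := by
    refine hu _ ⟨?_, fun τ z => ?_⟩
    · refine (Set.finite_singleton i₀).subset fun i hi => ?_
      by_contra hne
      exact hi (Function.update_of_ne hne _ _)
    · rw [hBz]
      symm
      refine finsum_eq_zero_of_forall_eq_zero fun i => ?_
      by_cases hi : i = i₀
      · subst hi
        rw [hBz, mul_zero]
      · show (Function.update (fun i => (0 : ModularForm 𝒮ℒ (0 - k i))) i₀
          (ModularForm.mcast hw (ModularForm.const 1) rfl) i) τ * B i τ z = 0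
        rw [Function.update_of_ne hi, ModularForm.zero_apply, zero_mul]
  have h3 : g₂ i₀ = (0 : ModularForm 𝒮ℒ (0 - k i₀)) := by
    rw [h2, ← h1]
  have h4 : g₂ i₀ = ModularForm.mcast hw (ModularForm.const 1) rfl := by
    simp only [g₂, Function.update_self]
  have h5 : (ModularForm.mcast hw (ModularForm.const 1 : ModularForm 𝒮ℒ 0) rfl)
      UpperHalfPlane.I = (0 : ℂ) := by
    rw [← h4, h3, ModularForm.zero_apply]
  rw [ModularForm.mcast_apply, ModularForm.const_apply] at h5
  exact one_ne_zero h5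

/-- There is an even positive definite irreducible non-unimodular lattice (of rank 15) without
nonzero weak Jacobi forms of weight zero and index one; no homogeneous basis has an element of
weight zero. Hence the answer to Q1 is negative. -/
theorem result :
    (∃ L : AddSubgroup (Fin 15 → ℝ), IsEvenLattice L ∧ IsIrred L ∧ dual L ≠ L ∧
      (∀ φ : ℍ → (Fin 15 → ℂ) → ℂ, WeakJacobi 0 L φ → ∀ τ z, φ τ z = 0) ∧
      ∀ (ι : Type) (k : ι → ℤ) (B : ι → ℍ → (Fin 15 → ℂ) → ℂ), IsHomBasis L k B →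
        ∀ i, k i ≠ 0) ∧
    ¬ ∀ (n : ℕ) (L : AddSubgroup (Fin n → ℝ)), IsEvenLattice L → IsIrred L → dual L ≠ L →
      ∃ (ι : Type) (k : ι → ℤ) (B : ι → ℍ → (Fin n → ℂ) → ℂ), IsHomBasis L k B ∧
        (∀ i, k i ≤ 0) ∧ ∃! i, k i = 0 := by
  refine ⟨⟨L15, isEven_L15, irred_L15, not_unimodular_L15, wt_zero_vanish,
    fun ι k B h i => basis_ne_zero L15 wt_zero_vanish k B h i⟩, fun h => ?_⟩
  obtain ⟨ι, k, B, hB, -, i, hi, -⟩ := h 15 L15 isEven_L15 irred_L15 not_unimodular_L15
  exact basis_ne_zero L15 wt_zero_vanish k B hB i hi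

end Pool.Agent.Results.MP_c5c797_nt.NoWeightZero
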